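import Pool.Agent.H20.GKKEx

open scoped ComplexOrder
open Pool.Agent.H20.GKK

namespace Pool.Agent.Results.MP_a5d893_al.NewtonFails

theorem result : ∃ (n : ℕ) (A : Matrix (Fin n) (Fin n) ℝ) (j : ℕ),
    IsGKK (A.map Complex.ofReal) ∧ IsTau (A.map Complex.ofReal) ∧ 1 ≤ j ∧ j + 1 ≤ n ∧
      coef (A.map Complex.ofReal) j ^ 2 <
        coef (A.map Complex.ofReal) (j - 1) * coef (A.map Complex.ofReal) (j + 1) := by
  have e : (Matrix.of fun i j : Fin 4 => (Z4 i j : ℝ)).map Complex.ofReal = mat 4 Z4 := by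
    ext i j
    simp [mat]
  refine ⟨4, Matrix.of fun i j => (Z4 i j : ℝ), 2, ?_⟩
  rw [e]
  exact ⟨gkk4, tau4, by norm_num, by norm_num, newton4⟩

end Pool.Agent.Results.MP_a5d893_al.NewtonFails
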